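import Mathlib

/-!
# Compactifications preserving hereditary cellularity: the answer is no, with sharp bounds

For every infinite cardinal `τ` there is a completely regular space `X` with exactly `τ` points
(all of them isolated except one), so with hereditary cellularity at most `τ`, such that every
compact Hausdorff space `K` containing `X` (in particular every compactification of `X`) has
hereditary cellularity at least `2 ^ τ` and tightness greater than `τ`; the value `2 ^ τ` is
attained by some compactification, so it is the exact minimum.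

The space is `D ∪ {p}` with `D` discrete; the trace of the neighbourhood filter of `p` on `D` is
the sum of two filters:

* on `D₁ = ι × ι`, the complements of the members of a strictly increasing chain of length `τ⁺` of
  subsets, modulo the ideal of the sets lying in initial columns (this gives the tightness; the
  chain exists for all infinite `τ`, singular or not, by a diagonal argument);
* on a set `D₂` with an independent family of `2 ^ τ` subsets, the complements of the finite unions
  of members of the family and of finite sets (this gives `2 ^ τ` points of `K` which form a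
  discrete subspace).
-/

open Cardinal Set Topology

universe u v w

namespace Pool.Agent.Results.MP_1d4a49_gt.SharpBound

/-- The Suslin number (cellularity) of a space: the least infinite cardinal `κ` such that every
family of pairwise disjoint nonempty open subsets has cardinality at most `κ`. -/
noncomputable def cellularity (X : Type u) [TopologicalSpace X] : Cardinal.{u} :=
  sInf {κ : Cardinal.{u} | ℵ₀ ≤ κ ∧ ∀ F : Set (Set X),
    (∀ U ∈ F, IsOpen U ∧ U.Nonempty) → F.PairwiseDisjoint id → #F ≤ κ}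

/-- The hereditary cellularity: the supremum of the cellularities of all subspaces. -/
noncomputable def heredCellularity (X : Type u) [TopologicalSpace X] : Cardinal.{u} :=
  ⨆ Y : Set X, cellularity Y

/-- The tightness: the least cardinal `κ` such that each point of the closure of a set `A` is in
the closure of a subset of `A` with at most `κ` elements. -/
noncomputable def tightness (X : Type u) [TopologicalSpace X] : Cardinal.{u} :=
  sInf {κ : Cardinal.{u} | ∀ A : Set X, ∀ x ∈ closure A, ∃ B ⊆ A, #B ≤ κ ∧ x ∈ closure B}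

/-! ### Chains -/

theorem exists_chain {P : Type v} (r : P → P → Prop) (κ : Type u) [LinearOrder κ]
    [WellFoundedLT κ] (hb : ∀ (α : κ) (f : Iio α → P), ∃ p, ∀ j, r (f j) p) :
    ∃ A : κ → P, ∀ α β, α < β → r (A α) (A β) := by
  classical
  have hwf : WellFounded (fun a b : κ => a < b) := wellFounded_lt
  let A : κ → P := hwf.fix
    (fun α prev => Classical.choose (hb α (fun j => prev j.1 j.2)))
  refine ⟨A, fun α β h => ?_⟩
  have e : A β = Classical.choose (hb β (fun j => A j.1)) := hwf.fix_eq _ β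
  rw [e]
  exact Classical.choose_spec (hb β (fun j => A j.1)) ⟨α, h⟩

theorem mk_Iio_lt' (c : Cardinal.{u}) (i : c.ord.ToType) : #(Iio i) < c := by
  simpa using mk_Iio_lt i

/-- Families of at most `τ` elements of the initial ordinal of `τ⁺` are bounded. -/
theorem exists_upper {τ : Cardinal.{u}} (hτ : ℵ₀ ≤ τ) (T : Set (Order.succ τ).ord.ToType)
    (hT : #T ≤ τ) : ∃ γ, ∀ t ∈ T, t < γ := by
  by_contra hcon
  push Not at hcon
  have hcov : (univ : Set (Order.succ τ).ord.ToType) ⊆ ⋃ t : T, Iic (t : (Order.succ τ).ord.ToType) := by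
    intro γ _
    obtain ⟨t, htT, ht⟩ := hcon γ
    exact mem_iUnion.2 ⟨⟨t, htT⟩, ht⟩
  have h1 : Order.succ τ ≤ #(⋃ t : T, Iic (t : (Order.succ τ).ord.ToType) : Set _) := by
    calc Order.succ τ = #(univ : Set (Order.succ τ).ord.ToType) := by simp
      _ ≤ _ := mk_le_mk_of_subset hcov
  have h2 : #(⋃ t : T, Iic (t : (Order.succ τ).ord.ToType) : Set _) ≤ τ := by
    refine (mk_iUnion_le _).trans ?_
    have h3 : ∀ t : T, #(Iic (t : (Order.succ τ).ord.ToType)) ≤ τ := by
      intro t
      have h4 : #(Iio (t : (Order.succ τ).ord.ToType)) ≤ τ :=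
        Order.lt_succ_iff.1 (mk_Iio_lt' _ _)
      have h5 : (Iic (t : (Order.succ τ).ord.ToType)) = insert t.1 (Iio t.1) := by
        ext x
        simp [le_iff_lt_or_eq, or_comm]
      rw [h5]
      refine (mk_insert_le).trans ?_
      exact add_le_of_le hτ h4 (one_le_aleph0.trans hτ)
    refine (mul_le_mul' hT (ciSup_le' h3)).trans ?_
    exact (mul_eq_self hτ).le
  exact absurd (h1.trans h2) (not_le.2 (Order.lt_succ τ))

/-- A tower: an increasing chain of sets of pairs, modulo initial columns. -/
def Tower {ι κ : Type u} [LT ι] [LT κ] (S : κ → ι → Set ι) : Prop :=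
  ∀ α β, α < β → ∃ i₀, ∀ i, i₀ < i → S α i ⊆ S β i ∧ ∃ x ∈ S β i, x ∉ S α i

/-- Towers of length `τ⁺` exist for every infinite `τ`. -/
theorem exists_tower {τ : Cardinal.{u}} (hτ : ℵ₀ ≤ τ) :
    ∃ S : (Order.succ τ).ord.ToType → τ.ord.ToType → Set τ.ord.ToType, Tower S := by
  classical
  let ι := τ.ord.ToType
  have hιcard : #ι = τ := mk_ord_toType τ
  have hreg : ∀ i : ι, ∃ c : Cardinal.{u}, c.IsRegular ∧ #(Iio i) < c ∧ c ≤ τ := by
    intro i
    by_cases h : τ = ℵ₀
    · exact ⟨ℵ₀, isRegular_aleph0, by rw [← h]; exact mk_Iio_lt' τ i, hτ⟩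
    · refine ⟨Order.succ (max ℵ₀ #(Iio i)), isRegular_succ (le_max_left _ _), ?_, ?_⟩
      · exact Order.lt_succ_of_le (le_max_right _ _)
      · exact Order.succ_le_of_lt (max_lt (lt_of_le_of_ne hτ (Ne.symm h)) (mk_Iio_lt' τ i))
  choose c hc1 hc2 hc3 using hreg
  let P := {A : ι → Set ι // ∀ i, #(A i) < c i}
  let r : P → P → Prop := fun A B => ∃ i₀, ∀ i, i₀ < i → A.1 i ⊆ B.1 i ∧ ∃ x ∈ B.1 i, x ∉ A.1 i
  obtain ⟨A, hA⟩ := exists_chain r (Order.succ τ).ord.ToType (by
    intro α f
    have h1 : #(Iio α) ≤ #ι := by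
      rw [hιcard]
      exact Order.lt_succ_iff.1 (mk_Iio_lt' _ _)
    obtain ⟨g⟩ := h1
    let U : ι → Set ι := fun i => ⋃ j : {j : Iio α // g j < i}, (f j.1).1 i
    have hU : ∀ i, #(U i) < c i := by
      intro i
      have h2 : #{j : Iio α // g j < i} < c i := by
        refine lt_of_le_of_lt ?_ (hc2 i)
        refine mk_le_of_injective (f := fun j : {j : Iio α // g j < i} => (⟨g j.1, j.2⟩ : Iio i)) ?_
        intro a b hab
        have hab' : g a.1 = g b.1 := congrArg Subtype.val hab
        exact Subtype.ext (g.injective hab')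
      exact (card_iUnion_lt_iff_forall_of_isRegular (hc1 i) h2).2 (fun j => (f j.1).2 i)
    have hx : ∀ i, ∃ x, x ∉ U i := by
      intro i
      by_contra hcon
      push Not at hcon
      have h3 : U i = Set.univ := eq_univ_of_forall hcon
      have h4 := hU i
      rw [h3, mk_univ, hιcard] at h4
      exact absurd (hc3 i) (not_le.2 h4)
    choose x hx using hx
    refine ⟨⟨fun i => insert (x i) (U i), ?_⟩, ?_⟩
    · intro i
      refine lt_of_le_of_lt (mk_insert_le) ?_
      exact add_lt_of_lt (hc1 i).aleph0_le (hU i) (lt_of_lt_of_le one_lt_aleph0 (hc1 i).aleph0_le)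
    · intro j
      refine ⟨g j, fun i hi => ⟨?_, x i, mem_insert _ _, ?_⟩⟩
      · exact fun y hy => mem_insert_of_mem _ (mem_iUnion.2 ⟨⟨j, hi⟩, hy⟩)
      · exact fun hy => hx i (mem_iUnion.2 ⟨⟨j, hi⟩, hy⟩))
  exact ⟨fun α => (A α).1, fun α β h => hA α β h⟩

/-! ### Spaces with one non-isolated point -/

section OnePoint

variable {D : Type u}

/-- The topology on `D ∪ {none}` in which the points of `D` are isolated and the trace of the
neighbourhood filter of `none` is `F`. -/
@[reducible] def top (F : Filter D) : TopologicalSpace (Option D) where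
  IsOpen U := none ∈ U → {d | some d ∈ U} ∈ F
  isOpen_univ := fun _ => by simp
  isOpen_inter := fun _ _ hU hV h => Filter.inter_mem (hU h.1) (hV h.2)
  isOpen_sUnion := by
    rintro 𝒰 h𝒰 ⟨U, hU, hn⟩
    exact Filter.mem_of_superset (h𝒰 U hU hn) (fun d hd => ⟨U, hU, hd⟩)

theorem t35 (F : Filter D) (hF : ∀ d, ({d}ᶜ : Set D) ∈ F) : @T35Space _ (top F) := by
  let _ : TopologicalSpace (Option D) := top F
  have hclosed : ∀ C : Set (Option D), none ∉ C → IsOpen C := fun C h h' => absurd h' h
  have hsing : ∀ q : D, IsClopen ({some q} : Set (Option D)) := by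
    intro q
    refine ⟨⟨fun _ => ?_⟩, hclosed _ (by simp)⟩
    refine Filter.mem_of_superset (hF q) ?_
    intro d hd
    simp only [mem_compl_iff, mem_singleton_iff, mem_ofPred_eq, Option.some.injEq] at hd ⊢
    exact hd
  have hT0 : T0Space (Option D) := by
    refine ⟨fun x y hxy => ?_⟩
    by_contra hne
    have key : ∀ q : D, ∀ y : Option D, Inseparable (some q) y → y = some q := by
      intro q y h
      have := (h.mem_open_iff (hsing q).isOpen).1 rfl
      simpa using this
    cases x with
    | none =>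
      cases y with
      | none => exact hne rfl
      | some q => exact hne (key q none hxy.symm)
    | some q => exact hne (key q y hxy).symm
  have hCR : CompletelyRegularSpace (Option D) := by
    refine ⟨fun x C hC hx => ?_⟩
    obtain ⟨E, hE, hxE, hEC⟩ : ∃ E : Set (Option D), IsClopen E ∧ x ∈ E ∧ Disjoint E C := by
      cases x with
      | none =>
        refine ⟨Cᶜ, ⟨?_, hC.isOpen_compl⟩, hx, disjoint_compl_left⟩
        rw [← isOpen_compl_iff, compl_compl]
        exact hclosed C hx
      | some q => exact ⟨{some q}, hsing q, rfl, disjoint_singleton_left.2 hx⟩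
    classical
    refine ⟨fun y => if y ∈ E then 0 else 1, ?_, ?_, ?_⟩
    · refine Continuous.if (fun a ha => ?_) continuous_const continuous_const
      have h2 : frontier {a | a ∈ E} = ∅ := hE.frontier_eq
      rw [h2] at ha
      exact absurd ha (notMem_empty a)
    · simp [hxE]
    · intro y hy
      have h3 : y ∉ E := fun h => (disjoint_left.1 hEC) h hy
      simp [h3]
  exact { hT0, hCR with }

/-- The trace of the neighbourhood filter of `none`, seen in a space containing the space. -/
theorem comap_nhds (F : Filter D) {K : Type v} [TopologicalSpace K] (e : Option D → K)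
    (he : @IsInducing _ _ (top F) _ e) :
    Filter.comap (fun d => e (some d)) (𝓝 (e none)) = F := by
  let _ : TopologicalSpace (Option D) := top F
  ext A
  constructor
  · rintro ⟨Z, hZ, hZA⟩
    have h1 : e ⁻¹' Z ∈ 𝓝 (none : Option D) := he.continuous.continuousAt hZ
    obtain ⟨O, hOZ, hO, hnO⟩ := mem_nhds_iff.1 h1
    exact Filter.mem_of_superset (hO hnO) (fun d hd => hZA (hOZ hd))
  · intro hA
    have hU : IsOpen ({y : Option D | ∀ d, y = some d → d ∈ A}) := by
      intro _
      refine Filter.mem_of_superset hA ?_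
      intro d hd d' hd'
      rw [Option.some.injEq] at hd'
      rw [← hd']
      exact hd
    obtain ⟨W, hW, hWe⟩ := he.isOpen_iff.1 hU
    refine ⟨W, hW.mem_nhds ?_, ?_⟩
    · have h : none ∈ e ⁻¹' W := by
        rw [hWe]
        intro d hd
        cases hd
      exact h
    · intro d hd
      have h : some d ∈ e ⁻¹' W := hd
      rw [hWe] at h
      exact h d rfl

end OnePoint

/-! ### Cardinal functions -/

theorem cellularity_le_of_mk_le {X : Type u} [TopologicalSpace X] {τ : Cardinal.{u}}
    (hτ : ℵ₀ ≤ τ) (hX : #X ≤ τ) : cellularity X ≤ τ := by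
  classical
  refine csInf_le' ⟨hτ, fun F hF hd => ?_⟩
  refine le_trans ?_ hX
  refine mk_le_of_injective (f := fun U : F => (hF U.1 U.2).2.choose) ?_
  intro U V hUV
  by_contra hne
  have h1 : U.1 ≠ V.1 := fun h => hne (Subtype.ext h)
  have h2 : Disjoint U.1 V.1 := hd U.2 V.2 h1
  have h3 := (hF U.1 U.2).2.choose_spec
  have h4 := (hF V.1 V.2).2.choose_spec
  exact disjoint_left.1 h2 h3 (by
    have h5 : (hF U.1 U.2).2.choose = (hF V.1 V.2).2.choose := hUV
    rw [h5]
    exact h4)

theorem heredCellularity_le_of_mk_le {X : Type u} [TopologicalSpace X] {τ : Cardinal.{u}}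
    (hτ : ℵ₀ ≤ τ) (hX : #X ≤ τ) : heredCellularity X ≤ τ := by
  refine ciSup_le' fun Y => ?_
  exact cellularity_le_of_mk_le hτ ((mk_subtype_le _).trans hX)

/-- A space whose points in `Y` can be separated from the rest of `Y` by open sets has
hereditary cellularity at least `#Y`. -/
theorem le_heredCellularity {K : Type v} [TopologicalSpace K] (Y : Set K)
    (hY : ∀ y ∈ Y, ∃ O : Set K, IsOpen O ∧ y ∈ O ∧ ∀ z ∈ Y, z ∈ O → z = y) :
    #Y ≤ heredCellularity K := by
  classical
  refine le_trans ?_ (le_ciSup (bddAbove_of_small) Y)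
  refine le_csInf ?_ ?_
  · refine ⟨max ℵ₀ #(Set Y), le_max_left _ _, fun F _ _ => ?_⟩
    exact (mk_set_le F).trans (le_max_right _ _)
  · rintro c ⟨_, hc⟩
    have h := hc (range (fun y : Y => ({y} : Set Y))) ?_ ?_
    · refine le_trans ?_ h
      exact (mk_range_eq (fun y : Y => ({y} : Set Y)) (singleton_injective)).symm.le
    · rintro _ ⟨y, rfl⟩
      refine ⟨?_, singleton_nonempty y⟩
      show IsOpen ({y} : Set Y)
      obtain ⟨O, hO, hyO, hz⟩ := hY y.1 y.2
      have h1 : ({y} : Set Y) = Subtype.val ⁻¹' O := by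
        ext z
        simp only [mem_singleton_iff, mem_preimage]
        constructor
        · rintro rfl
          exact hyO
        · intro h
          exact Subtype.ext (hz z.1 z.2 h)
      rw [h1]
      exact hO.preimage continuous_subtype_val
    · rintro _ ⟨y, rfl⟩ _ ⟨z, rfl⟩ hne
      simp only [Function.onFun, id, disjoint_singleton]
      exact fun h => hne (by rw [h])

/-! ### The filter of a tower: large tightness -/

section TowerFilter

variable {ι κ : Type u} [LinearOrder ι] [Nonempty ι] [LinearOrder κ]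

theorem tower_le {S : κ → ι → Set ι} (hS : Tower S) {α β : κ} (h : α ≤ β) :
    ∃ i₀, ∀ i, i₀ < i → S α i ⊆ S β i := by
  rcases h.lt_or_eq with h | h
  · obtain ⟨i₀, hi₀⟩ := hS α β h
    exact ⟨i₀, fun i hi => (hi₀ i hi).1⟩
  · subst h
    exact ⟨Classical.arbitrary ι, fun i _ => Subset.rfl⟩

variable [Nonempty κ]

/-- The filter of a tower. -/
def towerFilter (S : κ → ι → Set ι) (hS : Tower S) : Filter (ι × ι) where
  sets := {A | ∃ α i₀, ∀ q : ι × ι, i₀ < q.1 → q.2 ∉ S α q.1 → q ∈ A}
  univ_sets := ⟨Classical.arbitrary κ, Classical.arbitrary ι, fun _ _ _ => trivial⟩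
  sets_of_superset := by
    rintro A B ⟨α, i₀, h⟩ hAB
    exact ⟨α, i₀, fun q h1 h2 => hAB (h q h1 h2)⟩
  inter_sets := by
    rintro U V ⟨α, i₀, hα⟩ ⟨β, j₀, hβ⟩
    obtain ⟨k, hk⟩ := tower_le hS (le_max_left α β)
    obtain ⟨l, hl⟩ := tower_le hS (le_max_right α β)
    refine ⟨max α β, max (max i₀ j₀) (max k l), fun q hi hx => ⟨?_, ?_⟩⟩
    · refine hα q (lt_of_le_of_lt (le_trans (le_max_left _ _) (le_max_left _ _)) hi) ?_
      exact fun h => hx (hk _ (lt_of_le_of_lt (le_trans (le_max_left _ _) (le_max_right _ _)) hi) h)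
    · refine hβ q (lt_of_le_of_lt (le_trans (le_max_right _ _) (le_max_left _ _)) hi) ?_
      exact fun h => hx (hl _ (lt_of_le_of_lt (le_trans (le_max_right _ _) (le_max_right _ _)) hi) h)

theorem mem_towerFilter {S : κ → ι → Set ι} {hS : Tower S} {A : Set (ι × ι)} :
    A ∈ towerFilter S hS ↔ ∃ α i₀, ∀ q : ι × ι, i₀ < q.1 → q.2 ∉ S α q.1 → q ∈ A := Iff.rfl

variable [NoMaxOrder ι] [NoMaxOrder κ] [WellFoundedLT κ]

/-- Points of a compact space obtained from a tower: `x α ∉ W γ` for `α < γ`, and every closed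
neighbourhood of `p` contains `x β` for all large `β`. -/
theorem exists_points (S : κ → ι → Set ι) (hS : Tower S) {K : Type v} [TopologicalSpace K]
    [CompactSpace K] [T2Space K] (e : ι × ι → K) (p : K)
    (he : Filter.comap e (𝓝 p) = towerFilter S hS) :
    ∃ (W : κ → Set K) (x : κ → K), (∀ γ, IsOpen (W γ)) ∧ (∀ γ, p ∈ W γ) ∧
      (∀ α γ, α < γ → x α ∉ W γ) ∧
      (∀ Y : Set K, Y ∈ 𝓝 p → IsClosed Y → ∃ β, ∀ α, β ≤ α → x α ∈ Y) := by
  classical
  have hwf : WellFounded (fun a b : κ => a < b) := wellFounded_lt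
  have hne : ∀ α : κ, ({γ | α < γ} : Set κ).Nonempty := fun α => exists_gt α
  let s : κ → κ := fun α => hwf.min {γ | α < γ} (hne α)
  have hs1 : ∀ α, α < s α := fun α => hwf.min_mem {γ | α < γ} (hne α)
  have hs2 : ∀ α γ, α < γ → s α ≤ γ := fun α γ h => not_lt.1 (hwf.not_lt_min {γ | α < γ} h)
  have hW : ∀ α, ∃ W : Set K, IsOpen W ∧ p ∈ W ∧ ∀ q, e q ∈ W → q.2 ∉ S α q.1 := by
    intro α
    have h1 : {q : ι × ι | q.2 ∉ S α q.1} ∈ towerFilter S hS :=
      ⟨α, Classical.arbitrary ι, fun q _ h => h⟩
    rw [← he] at h1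
    obtain ⟨N, hN, hNe⟩ := h1
    obtain ⟨W, hWN, hW, hpW⟩ := mem_nhds_iff.1 hN
    exact ⟨W, hW, hpW, fun q hq => hNe (hWN hq)⟩
  choose W hWo hpW hWe using hW
  let T : κ → ι → Set (ι × ι) := fun α i₀ => {q | i₀ < q.1 ∧ q.2 ∈ S (s α) q.1 ∧ q.2 ∉ S α q.1}
  have hTne : ∀ α i₀, (T α i₀).Nonempty := by
    intro α i₀
    obtain ⟨k, hk⟩ := hS α (s α) (hs1 α)
    obtain ⟨i, hi⟩ := exists_gt (max i₀ k)
    obtain ⟨-, y, hy, hy'⟩ := hk i (lt_of_le_of_lt (le_max_right _ _) hi)
    exact ⟨(i, y), lt_of_le_of_lt (le_max_left _ _) hi, hy, hy'⟩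
  have hTmono : ∀ α i₀ j₀, i₀ ≤ j₀ → T α j₀ ⊆ T α i₀ := by
    rintro α i₀ j₀ h q ⟨h1, h2⟩
    exact ⟨lt_of_le_of_lt h h1, h2⟩
  have hx : ∀ α, ∃ x : K, ∀ i₀, x ∈ closure (e '' T α i₀) := by
    intro α
    have h := IsCompact.nonempty_iInter_of_directed_nonempty_isCompact_isClosed
      (fun i₀ : ι => closure (e '' T α i₀))
      (by
        intro i j
        refine ⟨max i j, ?_, ?_⟩
        · exact closure_mono (image_mono (hTmono α _ _ (le_max_left _ _)))
        · exact closure_mono (image_mono (hTmono α _ _ (le_max_right _ _))))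
      (fun i => ((hTne α i).image _).closure) (fun i => isClosed_closure.isCompact)
      (fun i => isClosed_closure)
    obtain ⟨x, hx⟩ := h
    exact ⟨x, fun i₀ => mem_iInter.1 hx i₀⟩
  choose x hx using hx
  refine ⟨W, x, hWo, hpW, ?_, ?_⟩
  · intro α γ hαγ hxW
    obtain ⟨k, hk⟩ := tower_le hS (hs2 α γ hαγ)
    have h1 : closure (e '' T α k) ⊆ (W γ)ᶜ := by
      refine closure_minimal ?_ (hWo γ).isClosed_compl
      rintro _ ⟨q, ⟨hq1, hq2, _⟩, rfl⟩ hqW
      exact hWe γ q hqW (hk q.1 hq1 hq2)
    exact h1 (hx α k) hxW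
  · intro Y hY hYc
    have h1 : e ⁻¹' Y ∈ towerFilter S hS := by
      rw [← he]
      exact Filter.preimage_mem_comap hY
    obtain ⟨β, i₀, hβ⟩ := h1
    refine ⟨β, fun α hα => ?_⟩
    obtain ⟨k, hk⟩ := tower_le hS hα
    have h2 : closure (e '' T α (max i₀ k)) ⊆ Y := by
      refine closure_minimal ?_ hYc
      rintro _ ⟨q, ⟨hq1, _, hq3⟩, rfl⟩
      refine hβ q (lt_of_le_of_lt (le_max_left _ _) hq1) ?_
      exact fun h => hq3 (hk q.1 (lt_of_le_of_lt (le_max_right _ _) hq1) h)
    exact h2 (hx α _)

end TowerFilter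

theorem lt_tightness {τ : Cardinal.{u}} (hτ : ℵ₀ ≤ τ)
    [Nonempty τ.ord.ToType] [Nonempty (Order.succ τ).ord.ToType]
    (S : (Order.succ τ).ord.ToType → τ.ord.ToType → Set τ.ord.ToType) (hS : Tower S)
    {K : Type v} [TopologicalSpace K] [CompactSpace K] [T2Space K]
    (e : τ.ord.ToType × τ.ord.ToType → K) (p : K)
    (he : Filter.comap e (𝓝 p) = towerFilter S hS) :
    Cardinal.lift.{v} τ < Cardinal.lift.{u} (tightness K) := by
  classical
  have hτ' : ℵ₀ ≤ Order.succ τ := hτ.trans (Order.le_succ τ)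
  have : NoMaxOrder τ.ord.ToType := noMaxOrder hτ
  have : NoMaxOrder (Order.succ τ).ord.ToType := noMaxOrder hτ'
  obtain ⟨W, x, hWo, hpW, hx1, hx2⟩ := exists_points S hS e p he
  have hmem : tightness K ∈ {c : Cardinal.{v} | ∀ A : Set K, ∀ x ∈ closure A,
      ∃ B ⊆ A, #B ≤ c ∧ x ∈ closure B} :=
    csInf_mem ⟨#K, fun A x hx => ⟨A, Subset.rfl, mk_subtype_le _, hx⟩⟩
  by_contra hcon
  rw [not_lt] at hcon
  have hp : p ∈ closure (range x) := by
    rw [mem_closure_iff_nhds]
    intro N hN
    obtain ⟨Y, hY, hYc, hYN⟩ := exists_mem_nhds_isClosed_subset hN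
    obtain ⟨β, hβ⟩ := hx2 Y hY hYc
    exact ⟨x β, hYN (hβ β le_rfl), ⟨β, rfl⟩⟩
  obtain ⟨B, hBA, hBc, hpB⟩ := hmem (range x) p hp
  have hg : ∀ z : B, ∃ α, x α = z.1 := fun z => hBA z.2
  choose g hg using hg
  have hR : #(range g) ≤ τ := by
    have h1 : Cardinal.lift.{v} #(range g) ≤ Cardinal.lift.{u} #B := mk_range_le_lift
    have h2 : Cardinal.lift.{v} #(range g) ≤ Cardinal.lift.{v} τ :=
      h1.trans ((Cardinal.lift_le.2 hBc).trans hcon)
    exact Cardinal.lift_le.1 h2
  obtain ⟨γ, hγ⟩ := exists_upper hτ _ hR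
  have h3 : closure B ⊆ (W γ)ᶜ := by
    refine closure_minimal ?_ (hWo γ).isClosed_compl
    intro z hz hzW
    refine hx1 (g ⟨z, hz⟩) γ (hγ _ ⟨⟨z, hz⟩, rfl⟩) ?_
    rw [hg ⟨z, hz⟩]
    exact hzW
  exact h3 hpB (hpW γ)

/-! ### The filter of an independent family: large discrete subspaces -/

section Independent

variable {ι : Type u}

open Classical in
/-- The standard independent family on `Finset ι × Finset (Finset ι)`. -/
def ind (X : Set ι) : Set (Finset ι × Finset (Finset ι)) :=
  {q | q.1.filter (· ∈ X) ∈ q.2}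

open Classical in
theorem ind_independent [Infinite ι] (X : Set ι) (E : Finset (Set ι)) (hX : X ∉ E)
    (G : Finset (Finset ι × Finset (Finset ι))) :
    ∃ q ∈ ind X, (∀ Y ∈ E, q ∉ ind Y) ∧ q ∉ G := by
  have h1 : ∀ Y : Set ι, ∃ a : ι, Y ∈ E → ¬ (a ∈ X ↔ a ∈ Y) := by
    intro Y
    by_cases hY : Y ∈ E
    · have h2 : X ≠ Y := fun h => hX (by rw [h]; exact hY)
      by_contra hcon
      push Not at hcon
      refine h2 (Set.ext fun a => ?_)
      exact (hcon a).2
    · exact ⟨Classical.arbitrary ι, fun h => absurd h hY⟩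
  choose a ha using h1
  obtain ⟨b, hb⟩ := Infinite.exists_notMem_finset (G.biUnion (fun q => q.1))
  let s : Finset ι := insert b (E.image a)
  refine ⟨(s, {s.filter (· ∈ X)}), ?_, ?_, ?_⟩
  · simp [ind]
  · intro Y hY hq
    have h3 : s.filter (· ∈ Y) = s.filter (· ∈ X) := by simpa [ind] using hq
    have h4 : a Y ∈ s := by
      simp only [s, Finset.mem_insert, Finset.mem_image]
      exact Or.inr ⟨Y, hY, rfl⟩
    have h5 : a Y ∈ s.filter (· ∈ Y) ↔ a Y ∈ s.filter (· ∈ X) := by rw [h3]
    simp only [Finset.mem_filter, h4, true_and] at h5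
    exact ha Y hY h5.symm
  · intro hG
    refine hb (Finset.mem_biUnion.2 ⟨_, hG, ?_⟩)
    simp [s]

open Classical in
/-- The filter of the complements of the finite unions of members of the independent family and
of finite sets. -/
def indFilter (ι : Type u) : Filter (Finset ι × Finset (Finset ι)) where
  sets := {A | ∃ (E : Finset (Set ι)) (G : Finset (Finset ι × Finset (Finset ι))),
    ∀ q, (∀ Y ∈ E, q ∉ ind Y) → q ∉ G → q ∈ A}
  univ_sets := ⟨∅, ∅, fun _ _ _ => trivial⟩
  sets_of_superset := by
    rintro A B ⟨E, G, h⟩ hAB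
    exact ⟨E, G, fun q h1 h2 => hAB (h q h1 h2)⟩
  inter_sets := by
    rintro A B ⟨E, G, h⟩ ⟨E', G', h'⟩
    refine ⟨E ∪ E', G ∪ G', fun q h1 h2 => ⟨?_, ?_⟩⟩
    · exact h q (fun Y hY => h1 Y (Finset.mem_union_left _ hY))
        (fun hq => h2 (Finset.mem_union_left _ hq))
    · exact h' q (fun Y hY => h1 Y (Finset.mem_union_right _ hY))
        (fun hq => h2 (Finset.mem_union_right _ hq))

open Classical in
theorem two_pow_le {K : Type v} [Infinite ι] [TopologicalSpace K] [CompactSpace K] [T2Space K]
    (e : Finset ι × Finset (Finset ι) → K) (p : K)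
    (he : Filter.comap e (𝓝 p) = indFilter ι) :
    Cardinal.lift.{v} (2 ^ #ι) ≤ Cardinal.lift.{u} (heredCellularity K) := by
  -- open and closed neighbourhoods of `p`
  have hW : ∀ X : Set ι, ∃ W : Set K, IsOpen W ∧ p ∈ W ∧ ∀ q, e q ∈ W → q ∉ ind X := by
    intro X
    have h1 : {q | q ∉ ind X} ∈ indFilter ι :=
      ⟨{X}, ∅, fun q h _ => h X (Finset.mem_singleton_self X)⟩
    rw [← he] at h1
    obtain ⟨N, hN, hNe⟩ := h1
    obtain ⟨W, hWN, hW, hpW⟩ := mem_nhds_iff.1 hN
    exact ⟨W, hW, hpW, fun q hq => hNe (hWN hq)⟩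
  choose W hWo hpW hWe using hW
  have hZ : ∀ X, ∃ Z ∈ 𝓝 p, IsClosed Z ∧ Z ⊆ W X := fun X =>
    exists_mem_nhds_isClosed_subset ((hWo X).mem_nhds (hpW X))
  choose Z hZn hZc hZW using hZ
  have hE : ∀ X : Set ι, ∃ (E : Finset (Set ι)) (G : Finset (Finset ι × Finset (Finset ι))),
      ∀ q, (∀ Y ∈ E, q ∉ ind Y) → q ∉ G → e q ∈ Z X := by
    intro X
    have h1 : e ⁻¹' (Z X) ∈ indFilter ι := by
      rw [← he]
      exact Filter.preimage_mem_comap (hZn X)
    exact h1
  choose E G hEG using hE
  -- the points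
  have hx : ∀ X : Set ι, ∃ x : K, ∀ (E : Finset (Set ι)) (G : Finset (Finset ι × Finset (Finset ι))),
      X ∉ E → x ∈ closure (e '' {q | q ∈ ind X ∧ (∀ Y ∈ E, q ∉ ind Y) ∧ q ∉ G}) := by
    intro X
    let I := {E : Finset (Set ι) // X ∉ E} × Finset (Finset ι × Finset (Finset ι))
    have hI : X ∉ (∅ : Finset (Set ι)) := by simp
    have : Nonempty I := ⟨(⟨∅, hI⟩, ∅)⟩
    have h := IsCompact.nonempty_iInter_of_directed_nonempty_isCompact_isClosed
      (fun i : I => closure (e '' {q | q ∈ ind X ∧ (∀ Y ∈ i.1.1, q ∉ ind Y) ∧ q ∉ i.2}))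
      (by
        intro i j
        have hij : X ∉ i.1.1 ∪ j.1.1 := by
          rw [Finset.mem_union]
          rintro (h | h)
          · exact i.1.2 h
          · exact j.1.2 h
        refine ⟨(⟨i.1.1 ∪ j.1.1, hij⟩, i.2 ∪ j.2), ?_, ?_⟩
        · refine closure_mono (image_mono ?_)
          rintro q ⟨h1, h2, h3⟩
          exact ⟨h1, fun Y hY => h2 Y (Finset.mem_union_left _ hY),
            fun h => h3 (Finset.mem_union_left _ h)⟩
        · refine closure_mono (image_mono ?_)
          rintro q ⟨h1, h2, h3⟩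
          exact ⟨h1, fun Y hY => h2 Y (Finset.mem_union_right _ hY),
            fun h => h3 (Finset.mem_union_right _ h)⟩)
      (fun i => by
        obtain ⟨q, h1, h2, h3⟩ := ind_independent X i.1.1 i.1.2 i.2
        exact (Set.Nonempty.image e (show Set.Nonempty {q | q ∈ ind X ∧ (∀ Y ∈ i.1.1, q ∉ ind Y) ∧
          q ∉ i.2} from ⟨q, h1, h2, h3⟩)).closure)
      (fun i => isClosed_closure.isCompact)
      (fun i => isClosed_closure)
    obtain ⟨x, hx⟩ := h
    exact ⟨x, fun E G hE => mem_iInter.1 hx ⟨⟨E, hE⟩, G⟩⟩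
  choose x hx using hx
  have hx1 : ∀ X, x X ∉ W X := by
    intro X hxW
    have h1 : closure (e '' {q | q ∈ ind X ∧ (∀ Y ∈ (∅ : Finset (Set ι)), q ∉ ind Y) ∧
        q ∉ (∅ : Finset (Finset ι × Finset (Finset ι)))}) ⊆ (W X)ᶜ := by
      refine closure_minimal ?_ (hWo X).isClosed_compl
      rintro _ ⟨q, ⟨hq1, _⟩, rfl⟩ hqW
      exact hWe X q hqW hq1
    exact h1 (hx X ∅ ∅ (by simp)) hxW
  have hx2 : ∀ X Y, Y ∉ E X → x Y ∈ Z X := by
    intro X Y hY
    have h1 : closure (e '' {q | q ∈ ind Y ∧ (∀ Y' ∈ E X, q ∉ ind Y') ∧ q ∉ G X}) ⊆ Z X := by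
      refine closure_minimal ?_ (hZc X)
      rintro _ ⟨q, ⟨_, hq2, hq3⟩, rfl⟩
      exact hEG X q hq2 hq3
    exact h1 (hx Y (E X) (G X) hY)
  have hle : #(range x) ≤ heredCellularity K := by
    refine le_heredCellularity _ ?_
    rintro _ ⟨X, rfl⟩
    have hfin : (x '' (E X : Set (Set ι)) \ {x X}).Finite :=
      ((E X).finite_toSet.image x).subset sdiff_subset
    refine ⟨(Z X)ᶜ ∩ (x '' (E X : Set (Set ι)) \ {x X})ᶜ,
      (hZc X).isOpen_compl.inter hfin.isClosed.isOpen_compl,
      ⟨fun h => hx1 X (hZW X h), fun h => h.2 rfl⟩, ?_⟩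
    rintro _ ⟨Y, rfl⟩ ⟨h3, h4⟩
    by_contra hne
    by_cases hY : Y ∈ E X
    · exact h4 ⟨⟨Y, hY, rfl⟩, hne⟩
    · exact h3 (hx2 X Y hY)
  have hfib : ∀ b : range x, #((fun X => (⟨x X, ⟨X, rfl⟩⟩ : range x)) ⁻¹' {b}) ≤ ℵ₀ := by
    rintro ⟨_, ⟨X, rfl⟩⟩
    have h1 : ((fun X => (⟨x X, ⟨X, rfl⟩⟩ : range x)) ⁻¹' {⟨x X, ⟨X, rfl⟩⟩}) ⊆
        (E X : Set (Set ι)) := by
      intro Y hY
      have h2 : x Y = x X := congrArg Subtype.val hY
      by_contra h3
      have h4 := hx2 X Y h3
      rw [h2] at h4
      exact hx1 X (hZW X h4)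
    exact ((E X).finite_toSet.subset h1).lt_aleph0.le
  have hcount : Cardinal.lift.{v} (2 ^ #ι) ≤ Cardinal.lift.{u} #(range x) * ℵ₀ := by
    have h1 := lift_mk_le_lift_mk_mul_of_lift_mk_preimage_le
      (fun X => (⟨x X, ⟨X, rfl⟩⟩ : range x)) (c := ℵ₀) (by
        intro b
        have h2 := Cardinal.lift_le.{v}.2 (hfib b)
        rwa [Cardinal.lift_aleph0] at h2)
    rw [mk_set] at h1
    exact h1
  have hbig : ℵ₀ < Cardinal.lift.{v} (2 ^ #ι) := by
    have h1 : (ℵ₀ : Cardinal.{u}) < 2 ^ #ι := (aleph0_le_mk ι).trans_lt (cantor _)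
    have h2 := Cardinal.lift_lt.{u, v}.2 h1
    rwa [Cardinal.lift_aleph0] at h2
  have hmain : Cardinal.lift.{v} (2 ^ #ι) ≤ Cardinal.lift.{u} #(range x) := by
    by_contra hcon
    rw [not_le] at hcon
    exact absurd hcount (not_le.2 (mul_lt_of_lt hbig.le hcon hbig))
  exact hmain.trans (Cardinal.lift_le.2 hle)

end Independent

/-! ### Sums of filters -/

theorem comap_inl {A : Type u} {B : Type v} (F : Filter A) (G : Filter B) :
    Filter.comap Sum.inl (Filter.map Sum.inl F ⊔ Filter.map Sum.inr G) = F := by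
  ext s
  constructor
  · rintro ⟨V, hV, hVs⟩
    exact Filter.mem_of_superset hV.1 hVs
  · intro hs
    refine ⟨Sum.inl '' s ∪ range Sum.inr, ⟨?_, ?_⟩, ?_⟩
    · exact Filter.mem_map.2 (Filter.mem_of_superset hs (fun a ha => Or.inl ⟨a, ha, rfl⟩))
    · exact Filter.mem_map.2
        (Filter.mem_of_superset Filter.univ_mem (fun b _ => Or.inr ⟨b, rfl⟩))
    · rintro a (⟨a', ha', h⟩ | ⟨b, h⟩)
      · rw [← Sum.inl_injective h]
        exact ha'
      · cases h

theorem comap_inr {A : Type u} {B : Type v} (F : Filter A) (G : Filter B) :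
    Filter.comap Sum.inr (Filter.map Sum.inl F ⊔ Filter.map Sum.inr G) = G := by
  ext s
  constructor
  · rintro ⟨V, hV, hVs⟩
    exact Filter.mem_of_superset hV.2 hVs
  · intro hs
    refine ⟨Sum.inr '' s ∪ range Sum.inl, ⟨?_, ?_⟩, ?_⟩
    · exact Filter.mem_map.2
        (Filter.mem_of_superset Filter.univ_mem (fun b _ => Or.inr ⟨b, rfl⟩))
    · exact Filter.mem_map.2 (Filter.mem_of_superset hs (fun a ha => Or.inl ⟨a, ha, rfl⟩))
    · rintro a (⟨a', ha', h⟩ | ⟨b, h⟩)
      · rw [← Sum.inr_injective h]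
        exact ha'
      · cases h

/-! ### A small compactification -/

open Classical in
/-- Subspaces of a power of the two-point space have small cellularity. -/
theorem cellularity_le_of_inducing {C : Type u} [Infinite C] {Y : Type u} [TopologicalSpace Y]
    (j : Y → C → Bool) (hj : IsInducing j) : cellularity Y ≤ #C := by
  refine csInf_le' ⟨aleph0_le_mk C, fun F hF hd => ?_⟩
  have key : ∀ U : F, ∃ (y : Y) (E : Finset C), ∀ z : Y, (∀ c ∈ E, j z c = j y c) → z ∈ U.1 := by
    intro U
    obtain ⟨hUo, y, hy⟩ := hF U.1 U.2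
    obtain ⟨V, hV, hVU⟩ := hj.isOpen_iff.1 hUo
    have hyV : j y ∈ V := by
      have h : y ∈ j ⁻¹' V := by
        rw [hVU]
        exact hy
      exact h
    obtain ⟨E, u, hu, hEV⟩ := isOpen_pi_iff.1 hV (j y) hyV
    refine ⟨y, E, fun z hz => ?_⟩
    rw [← hVU]
    refine hEV ?_
    intro c hc
    rw [hz c hc]
    exact (hu c hc).2
  choose y E hE using key
  have hinj : Function.Injective (fun U : F => (E U, (E U).filter (fun c => j (y U) c = true))) := by
    intro U V hUV
    by_contra hne
    have h1 : U.1 ≠ V.1 := fun h => hne (Subtype.ext h)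
    have h2 : Disjoint U.1 V.1 := hd U.2 V.2 h1
    have h3 : E U = E V := congrArg Prod.fst hUV
    have h4 : (E U).filter (fun c => j (y U) c = true) = (E V).filter (fun c => j (y V) c = true) :=
      congrArg Prod.snd hUV
    have h5 : y V ∈ U.1 := by
      refine hE U (y V) fun c hc => ?_
      have hc' : c ∈ E V := by rw [← h3]; exact hc
      have h6 : c ∈ (E U).filter (fun c => j (y U) c = true) ↔
          c ∈ (E V).filter (fun c => j (y V) c = true) := by rw [h4]
      simp only [Finset.mem_filter, hc, hc', true_and] at h6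
      exact (Bool.eq_iff_iff.2 h6).symm
    exact disjoint_left.1 h2 h5 (hE V (y V) fun _ _ => rfl)
  calc #F ≤ #(Finset C × Finset C) := mk_le_of_injective hinj
    _ = #C := by
      rw [mk_prod, Cardinal.lift_id, mk_finset_of_infinite, mul_eq_self (aleph0_le_mk C)]

open Classical in
/-- A space with one non-isolated point and with underlying set of size `τ` has a compactification
of hereditary cellularity at most `2 ^ τ`. -/
theorem exists_small {D : Type u} [Infinite D] (F : Filter D) [F.NeBot]
    (hF : ∀ d, ({d}ᶜ : Set D) ∈ F) :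
    ∃ (K : Type u) (_ : TopologicalSpace K) (_ : CompactSpace K) (_ : T2Space K)
      (e : Option D → K), @IsEmbedding _ _ (top F) _ e ∧ DenseRange e ∧
        heredCellularity K ≤ 2 ^ #D := by
  let _ : TopologicalSpace (Option D) := top F
  let C := {A : Set D // A ∈ F ∨ Aᶜ ∈ F}
  have hsing : ∀ d : D, ({d} : Set D) ∉ F := fun d hd => by
    have h1 := Filter.inter_mem hd (hF d)
    rw [inter_compl_self] at h1
    exact Filter.empty_notMem F h1
  let sg : D → C := fun d => ⟨{d}, Or.inr (hF d)⟩
  have hsg : Function.Injective sg := fun a b h => by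
    have h1 : ({a} : Set D) = {b} := congrArg Subtype.val h
    exact singleton_injective h1
  have hinf : Infinite C := Infinite.of_injective sg hsg
  let f : Option D → C → Bool := fun y A => match y with
    | none => decide (A.1 ∈ F)
    | some d => decide (d ∈ A.1)
  have hfn : ∀ A : C, f none A = decide (A.1 ∈ F) := fun _ => rfl
  have hfs : ∀ (d : D) (A : C), f (some d) A = decide (d ∈ A.1) := fun _ _ => rfl
  have hfc : Continuous f := by
    refine continuous_pi fun A => ?_
    refine continuous_discrete_rng.2 fun b => ?_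
    show none ∈ _ → _
    intro hb
    have hb' : f none A = b := hb
    rw [hfn] at hb'
    have h1 : {d : D | decide (d ∈ A.1) = b} ∈ F := by
      by_cases hA : A.1 ∈ F
      · rw [decide_eq_true hA] at hb'
        subst hb'
        refine Filter.mem_of_superset hA fun d hd => ?_
        exact decide_eq_true hd
      · rw [decide_eq_false hA] at hb'
        subst hb'
        refine Filter.mem_of_superset (A.2.resolve_left hA) fun d hd => ?_
        exact decide_eq_false hd
    exact h1
  have hfi : Function.Injective f := by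
    have key : ∀ (d : D) (y : Option D), f (some d) = f y → y = some d := by
      intro d y h
      have h1 : f (some d) (sg d) = true := by
        rw [hfs]
        exact decide_eq_true rfl
      cases y with
      | none =>
        have h2 : f none (sg d) = false := by
          rw [hfn]
          exact decide_eq_false (hsing d)
        rw [← h, h1] at h2
        cases h2
      | some d' =>
        rw [h, hfs] at h1
        have h3 : d' ∈ ({d} : Set D) := of_decide_eq_true h1
        rw [mem_singleton_iff.1 h3]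
    intro x y h
    cases x with
    | some d => exact (key d y h).symm
    | none =>
      cases y with
      | none => rfl
      | some d => exact key d none h.symm
  have hfind : IsInducing f := by
    refine ⟨le_antisymm hfc.le_induced ?_⟩
    intro U hU
    rw [isOpen_induced_iff]
    -- the coordinate cylinders generate
    have hcyl : ∀ (c : C), IsOpen {g : C → Bool | g c = true} := fun c =>
      IsOpen.preimage (f := fun g : C → Bool => g c) (continuous_apply c)
        (isOpen_discrete ({true} : Set Bool))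
    by_cases hn : none ∈ U
    · have hA : {d | some d ∈ U} ∈ F := hU hn
      refine ⟨{g | g ⟨{d | some d ∈ U}, Or.inl hA⟩ = true}, hcyl _, ?_⟩
      ext y
      cases y with
      | none => simpa [hfn, hA] using hn
      | some d =>
        show f (some d) _ = true ↔ _
        rw [hfs]
        simp
    · refine ⟨⋃ d ∈ {d | some d ∈ U}, {g | g (sg d) = true},
        isOpen_biUnion fun d _ => hcyl _, ?_⟩
      ext y
      simp only [mem_preimage, mem_iUnion, mem_ofPred_eq, exists_prop]
      cases y with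
      | none =>
        constructor
        · rintro ⟨d, _, h⟩
          rw [hfn] at h
          exact absurd (of_decide_eq_true h) (hsing d)
        · exact fun h => absurd h hn
      | some d =>
        constructor
        · rintro ⟨d', hd', h⟩
          rw [hfs] at h
          have h3 : d ∈ ({d'} : Set D) := of_decide_eq_true h
          rw [mem_singleton_iff.1 h3]
          exact hd'
        · intro h
          refine ⟨d, h, ?_⟩
          rw [hfs]
          exact decide_eq_true rfl
  have hCcard : #C ≤ 2 ^ #D := by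
    rw [← mk_set]
    exact mk_subtype_le _
  let K := closure (range f)
  let e : Option D → K := fun y => ⟨f y, subset_closure ⟨y, rfl⟩⟩
  have hval : IsInducing (Subtype.val : K → C → Bool) := IsInducing.subtypeVal
  refine ⟨K, inferInstance, isCompact_iff_compactSpace.1 isClosed_closure.isCompact,
    inferInstance, e, ⟨⟨?_⟩, ?_⟩, ?_, ?_⟩
  · rw [hval.eq_induced, induced_compose]
    exact hfind.eq_induced
  · intro x y h
    exact hfi (congrArg Subtype.val h)
  · intro z
    rw [hval.closure_eq_preimage_closure_image]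
    have h1 : Subtype.val '' range e = range f := by
      rw [← range_comp]
      rfl
    rw [mem_preimage, h1]
    exact z.2
  · refine ciSup_le' fun Y => ?_
    refine le_trans ?_ hCcard
    exact cellularity_le_of_inducing (fun y : Y => y.1.1) (hval.comp IsInducing.subtypeVal)

/-- The filter of the example. -/
def bigFilter {ι κ : Type u} [LinearOrder ι] [Nonempty ι] [LinearOrder κ] [Nonempty κ]
    (S : κ → ι → Set ι) (hS : Tower S) : Filter ((ι × ι) ⊕ (Finset ι × Finset (Finset ι))) :=
  Filter.map Sum.inl (towerFilter S hS) ⊔ Filter.map Sum.inr (indFilter ι)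

/-- The conclusions for all compact Hausdorff spaces containing the space of the example. -/
theorem big_of_isInducing {τ : Cardinal.{u}} (hτ : ℵ₀ ≤ τ)
    [Nonempty τ.ord.ToType] [Nonempty (Order.succ τ).ord.ToType] [Infinite τ.ord.ToType]
    (S : (Order.succ τ).ord.ToType → τ.ord.ToType → Set τ.ord.ToType) (hS : Tower S)
    {K : Type v} [TopologicalSpace K] [CompactSpace K] [T2Space K]
    (e : Option ((τ.ord.ToType × τ.ord.ToType) ⊕
      (Finset τ.ord.ToType × Finset (Finset τ.ord.ToType))) → K)
    (he : @IsInducing _ _ (top (bigFilter S hS)) _ e) :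
    Cardinal.lift.{v} (2 ^ τ) ≤ Cardinal.lift.{u} (heredCellularity K) ∧
      Cardinal.lift.{v} τ < Cardinal.lift.{u} (tightness K) := by
  have h1 := comap_nhds (bigFilter S hS) e he
  have h2 : Filter.comap (fun d => e (some (Sum.inl d))) (𝓝 (e none)) = towerFilter S hS := by
    rw [← comap_inl (towerFilter S hS) (indFilter τ.ord.ToType)]
    show _ = Filter.comap Sum.inl (bigFilter S hS)
    rw [← h1, Filter.comap_comap]
    rfl
  have h3 : Filter.comap (fun d => e (some (Sum.inr d))) (𝓝 (e none)) =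
      indFilter τ.ord.ToType := by
    rw [← comap_inr (towerFilter S hS) (indFilter τ.ord.ToType)]
    show _ = Filter.comap Sum.inr (bigFilter S hS)
    rw [← h1, Filter.comap_comap]
    rfl
  refine ⟨?_, lt_tightness hτ S hS _ _ h2⟩
  have h4 := two_pow_le _ _ h3
  rwa [mk_ord_toType] at h4

/-- **The question has a negative answer for every infinite cardinal `τ`, with sharp bounds.**
There is a completely regular (Tychonoff) space `X` with exactly `τ` points, all but one of them
isolated, so with hereditary cellularity at most `τ`, such that every compact Hausdorff space `K`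
in which `X` embeds, in particular every compactification of `X`, has hereditary cellularity at
least `2 ^ τ` and tightness greater than `τ`; moreover some compactification of `X` has hereditary
cellularity exactly `2 ^ τ`. -/
theorem result (τ : Cardinal.{u}) (hτ : ℵ₀ ≤ τ) :
    ∃ (X : Type u) (_ : TopologicalSpace X), T35Space X ∧ #X = τ ∧
      (∃ p : X, ∀ x : X, x ≠ p → IsOpen ({x} : Set X)) ∧ heredCellularity X ≤ τ ∧
      (∀ (K : Type v) [TopologicalSpace K] [CompactSpace K] [T2Space K] (e : X → K),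
        IsEmbedding e →
          Cardinal.lift.{v} (2 ^ τ) ≤ Cardinal.lift.{u} (heredCellularity K) ∧
            Cardinal.lift.{v} τ < Cardinal.lift.{u} (tightness K)) ∧
      ∃ (K : Type u) (_ : TopologicalSpace K) (_ : CompactSpace K) (_ : T2Space K) (e : X → K),
        IsEmbedding e ∧ DenseRange e ∧ heredCellularity K = 2 ^ τ := by
  obtain ⟨S, hS⟩ := exists_tower hτ
  have : Nonempty τ.ord.ToType := by
    rw [← mk_ne_zero_iff, mk_ord_toType]
    exact (aleph0_pos.trans_le hτ).ne'
  have : Nonempty (Order.succ τ).ord.ToType := by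
    rw [← mk_ne_zero_iff, mk_ord_toType]
    exact (aleph0_pos.trans_le (hτ.trans (Order.le_succ τ))).ne'
  have : Infinite τ.ord.ToType := by
    rw [infinite_iff, mk_ord_toType]
    exact hτ
  have : NoMaxOrder τ.ord.ToType := noMaxOrder hτ
  let ι := τ.ord.ToType
  let D := (ι × ι) ⊕ (Finset ι × Finset (Finset ι))
  let F : Filter D := bigFilter S hS
  have hDcard : #D = τ := by
    have h1 : #ι = τ := mk_ord_toType τ
    have h2 : #(ι × ι) = τ := by
      rw [mk_prod, Cardinal.lift_id, h1, mul_eq_self hτ]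
    have h3 : #(Finset ι × Finset (Finset ι)) = τ := by
      rw [mk_prod, Cardinal.lift_id, Cardinal.lift_id, mk_finset_of_infinite,
        mk_finset_of_infinite, mk_finset_of_infinite, h1, mul_eq_self hτ]
    show #((ι × ι) ⊕ (Finset ι × Finset (Finset ι))) = τ
    rw [mk_sum, Cardinal.lift_id, Cardinal.lift_id, h2, h3, add_eq_self hτ]
  have hDinf : Infinite D := by
    rw [infinite_iff, hDcard]
    exact hτ
  have hF : ∀ d, ({d}ᶜ : Set D) ∈ F := by
    rintro (⟨i, x⟩ | q)
    · refine ⟨⟨Classical.arbitrary _, i, fun q hq _ h => ?_⟩, ?_⟩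
      · have h1 : q = (i, x) := Sum.inl_injective h
        rw [h1] at hq
        exact lt_irrefl _ hq
      · exact Filter.mem_map.2 (Filter.mem_of_superset Filter.univ_mem (fun q _ h => by cases h))
    · refine ⟨Filter.mem_map.2
        (Filter.mem_of_superset Filter.univ_mem (fun q _ h => by cases h)), ?_⟩
      refine ⟨∅, {q}, fun q' _ hq' h => hq' ?_⟩
      rw [Finset.mem_singleton]
      exact Sum.inr_injective h
  have hFne : F.NeBot := by
    rw [Filter.neBot_iff]
    intro h
    have h1 : (∅ : Set D) ∈ F := by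
      rw [h]
      trivial
    obtain ⟨E, G, hEG⟩ := h1.2
    obtain ⟨X, hX⟩ := Infinite.exists_notMem_finset E
    obtain ⟨q, _, h2, h3⟩ := ind_independent X E hX G
    exact hEG q h2 h3
  have hcard : #(Option D) = τ := by
    rw [mk_option, hDcard]
    exact add_one_eq hτ
  let _ : TopologicalSpace (Option D) := top F
  refine ⟨Option D, top F, t35 F hF, hcard, ⟨none, fun x hx h => absurd h (Ne.symm hx)⟩,
    heredCellularity_le_of_mk_le hτ hcard.le,
    fun K _ _ _ e he => big_of_isInducing hτ S hS e he.isInducing, ?_⟩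
  obtain ⟨K, i1, i2, i3, e, he, hd, hc⟩ := exists_small F hF
  refine ⟨K, i1, i2, i3, e, he, hd, le_antisymm (by rwa [hDcard] at hc) ?_⟩
  have h1 := (big_of_isInducing hτ S hS e he.isInducing).1
  rwa [Cardinal.lift_id, Cardinal.lift_id] at h1

end Pool.Agent.Results.MP_1d4a49_gt.SharpBound
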